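import Pool.Agent.Helper97.Ku.GoalsG

set_option autoImplicit false
set_option linter.unusedSectionVars false

/-!
# Packet WNA (`MP_47bc22_lc`): names of elements
-/

namespace Pool.Agent.Helper97.Ku.PkWNA

universe u

variable {Ω : Type u} [LinearOrder Ω] {L : Type u} [CompleteBooleanAlgebra L]

/-- the equality value -/
def E (a b : WN Ω L) : L := ⨆ i, (a.v i ⊓ b.v i)

lemma E_comm (a b : WN Ω L) : E a b = E b a := by
  unfold E
  exact iSup_congr fun i => inf_comm _ _

lemma E_refl (a : WN Ω L) : E a a = ⊤ := by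
  unfold E
  simp only [inf_idem]
  exact a.tot

lemma E_le (a b : WN Ω L) (i : Ω) : E a b ⊓ a.v i ≤ b.v i := by
  unfold E
  rw [iSup_inf_eq]
  refine iSup_le fun j => ?_
  by_cases h : j = i
  · subst h
    exact le_trans inf_le_left inf_le_right
  · rw [inf_right_comm, a.dj j i h, bot_inf_eq]
    exact bot_le

lemma E_trans (a b c : WN Ω L) : E a b ⊓ E b c ≤ E a c := by
  conv_lhs => rw [E, iSup_inf_eq]
  refine iSup_mono fun i => ?_
  refine le_inf (le_trans inf_le_left inf_le_left) ?_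
  refine le_trans ?_ (E_le b c i)
  exact le_inf inf_le_right (le_trans inf_le_left inf_le_right)

lemma iSup_bo (i : Ω) (f : Ω → L) : (⨆ j, (bo (j = i) ⊓ f j)) = f i := by
  apply le_antisymm
  · refine iSup_le fun j => ?_
    by_cases h : j = i
    · subst h; exact inf_le_right
    · rw [bo_false h, bot_inf_eq]; exact bot_le
  · refine le_trans ?_ (le_iSup _ i)
    rw [bo_true rfl, top_inf_eq]

lemma E_chk (a : WN Ω L) (i : Ω) : E a (WN.chk i) = a.v i := by
  rw [E_comm]
  exact iSup_bo i a.v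

section Full

variable {A : WN Ω L → L}

lemma ext_chk (hA : WN.Ext A) (a : WN Ω L) : A a = ⨆ i, (a.v i ⊓ A (WN.chk i)) := by
  have h1 : A a = ⨆ i, (a.v i ⊓ A a) := by
    rw [← iSup_inf_eq, a.tot, top_inf_eq]
  apply le_antisymm
  · conv_lhs => rw [h1]
    refine iSup_mono fun i => le_inf inf_le_left ?_
    have := hA a (WN.chk i)
    rwa [show (⨆ j, (a.v j ⊓ (WN.chk i : WN Ω L).v j)) = a.v i from E_chk a i] at this
  · conv_rhs => rw [h1]
    refine iSup_mono fun i => le_inf inf_le_left ?_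
    have := hA (WN.chk i) a
    rwa [show (⨆ j, ((WN.chk i : WN Ω L).v j ⊓ a.v j)) = a.v i from
      (E_comm _ _).trans (E_chk a i)] at this

lemma sup_chk (hA : WN.Ext A) : (⨆ b, A b) = ⨆ i, A (WN.chk i) := by
  apply le_antisymm
  · refine iSup_le fun b => ?_
    rw [ext_chk hA b]
    exact iSup_mono fun i => inf_le_right
  · exact iSup_le fun i => le_iSup A (WN.chk i)

lemma inf_chk (hA : WN.Ext A) : (⨅ b, A b) = ⨅ i, A (WN.chk i) := by
  apply le_antisymm
  · exact le_iInf fun i => iInf_le A (WN.chk i)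
  · refine le_iInf fun b => ?_
    rw [ext_chk hA b]
    calc (⨅ i, A (WN.chk i)) = (⨆ i, b.v i) ⊓ ⨅ i, A (WN.chk i) := by rw [b.tot, top_inf_eq]
      _ = ⨆ i, (b.v i ⊓ ⨅ i, A (WN.chk i)) := iSup_inf_eq _ _
      _ ≤ _ := iSup_mono fun i => inf_le_inf_left _ (iInf_le _ i)

lemma ext_compl (hA : WN.Ext A) : WN.Ext (fun a => (A a)ᶜ) := by
  intro a b
  show E a b ⊓ (A a)ᶜ ≤ (A b)ᶜ
  rw [le_compl_iff_disjoint_right, disjoint_iff_inf_le]
  have h1 : E b a ⊓ A b ≤ A a := hA b a
  calc E a b ⊓ (A a)ᶜ ⊓ A b ≤ A a ⊓ (A a)ᶜ := by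
        refine le_inf ?_ (le_trans inf_le_left inf_le_right)
        refine le_trans ?_ h1
        rw [E_comm b a]
        exact inf_le_inf_right _ inf_le_left
    _ ≤ ⊥ := by rw [inf_compl_self]

lemma attain [WellFoundedLT Ω] (G : Grd Ω) (hA : WN.Ext A) : ∃ a, A a = ⨆ b, A b := by
  set s : Ω → L := fun i => A (WN.chk i) ⊓ (⨆ j, ⨆ _ : j < i, A (WN.chk j))ᶜ with hs
  have hs1 : ∀ i, s i ≤ A (WN.chk i) := fun i => inf_le_left
  have hs2 : ∀ i j, j < i → s i ≤ (A (WN.chk j))ᶜ := fun i j h => by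
    refine le_trans inf_le_right (compl_le_compl ?_)
    exact le_iSup₂_of_le j h le_rfl
  have hd : ∀ i j, j < i → s i ⊓ s j = ⊥ := fun i j h => by
    rw [eq_bot_iff]
    refine le_trans (inf_le_inf (hs2 i j h) (hs1 j)) ?_
    rw [compl_inf_self]
  have hdj : ∀ i j, i ≠ j → s i ⊓ s j = ⊥ := fun i j h => by
    rcases lt_or_gt_of_ne h with h1 | h1
    · rw [inf_comm]; exact hd j i h1
    · exact hd i j h1
  have hS : ∀ i, A (WN.chk i) ≤ ⨆ i, s i := by
    intro i
    induction i using WellFoundedLT.induction with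
    | ind i ih =>
      have h1 : A (WN.chk i) ≤ s i ⊔ ⨆ j, ⨆ _ : j < i, A (WN.chk j) := by
        have : A (WN.chk i) = (A (WN.chk i) ⊓ (⨆ j, ⨆ _ : j < i, A (WN.chk j))ᶜ) ⊔
            (A (WN.chk i) ⊓ (⨆ j, ⨆ _ : j < i, A (WN.chk j))) := by
          rw [← inf_sup_left, compl_sup_eq_top, inf_top_eq]
        conv_lhs => rw [this]
        exact sup_le_sup le_rfl inf_le_right
      refine le_trans h1 (sup_le (le_iSup s i) ?_)
      exact iSup₂_le fun j hj => ih j hj
  set S : L := ⨆ i, s i with hSdef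
  have hsS : ∀ i, s i ≤ S := fun i => le_iSup s i
  let a : WN Ω L :=
    { v := fun i => s i ⊔ (bo (i = G.c0) ⊓ Sᶜ)
      tot := by
        rw [eq_top_iff, ← sup_compl_eq_top (x := S)]
        refine sup_le (iSup_mono fun i => le_sup_left) ?_
        refine le_trans ?_ (le_iSup _ G.c0)
        rw [bo_true rfl, top_inf_eq]
        exact le_sup_right
      dj := by
        intro i j h
        rw [eq_bot_iff, inf_sup_left, inf_sup_right, inf_sup_right]
        refine sup_le (sup_le ?_ ?_) (sup_le ?_ ?_)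
        · rw [hdj i j h]
        · calc bo (i = G.c0) ⊓ Sᶜ ⊓ s j ≤ Sᶜ ⊓ S := inf_le_inf inf_le_right (hsS j)
            _ ≤ ⊥ := by rw [compl_inf_self]
        · calc s i ⊓ (bo (j = G.c0) ⊓ Sᶜ) ≤ S ⊓ Sᶜ := inf_le_inf (hsS i) inf_le_right
            _ ≤ ⊥ := by rw [inf_compl_self]
        · by_cases hi : i = G.c0
          · have hj : ¬ j = G.c0 := fun hj => h (hi.trans hj.symm)
            rw [bo_false hj, bot_inf_eq, inf_bot_eq]
          · rw [bo_false hi, bot_inf_eq, bot_inf_eq] }
  refine ⟨a, le_antisymm (le_iSup A a) ?_⟩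
  rw [sup_chk hA, ext_chk hA a]
  refine iSup_le fun i => le_trans (hS i) ?_
  refine iSup_mono fun j => le_inf le_sup_left (hs1 j)

end Full

/-! ### extensionality of the value of a formula -/

/-- generic binary atoms -/
lemma atom_ext (a a' b b' : WN Ω L) (r : Ω → Ω → L) :
    E a a' ⊓ E b b' ⊓ (⨆ i, ⨆ j, (a.v i ⊓ b.v j ⊓ r i j)) ≤
      ⨆ i, ⨆ j, (a'.v i ⊓ b'.v j ⊓ r i j) := by
  rw [inf_iSup_eq]
  refine iSup_mono fun i => ?_
  rw [inf_iSup_eq]
  refine iSup_mono fun j => ?_
  refine le_inf (le_inf ?_ ?_) (le_trans inf_le_right inf_le_right)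
  · refine le_trans ?_ (E_le a a' i)
    exact le_inf (le_trans inf_le_left inf_le_left)
      (le_trans inf_le_right (le_trans inf_le_left inf_le_left))
  · refine le_trans ?_ (E_le b b' j)
    exact le_inf (le_trans inf_le_left inf_le_right)
      (le_trans inf_le_right (le_trans inf_le_left inf_le_right))

lemma pr_ext (G : Grd Ω) (a a' b b' : WN Ω L) :
    E a a' ⊓ E b b' ≤ E (WN.pr G a b) (WN.pr G a' b') := by
  unfold E
  rw [iSup_inf_eq]
  refine iSup_le fun i => ?_
  rw [inf_iSup_eq]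
  refine iSup_le fun j => ?_
  refine le_trans ?_ (le_iSup _ (G.pi (i, j)))
  simp only [WN.pr, Equiv.symm_apply_apply]
  rw [inf_inf_inf_comm]

lemma tm_ext (G : Grd Ω) (t : Tm) (i : ℕ → WN Ω L) (k : ℕ) (a b : WN Ω L) :
    E a b ≤ E (t.ev (M1 G L) (Function.update i k a)) (t.ev (M1 G L) (Function.update i k b)) := by
  induction t with
  | v j =>
    simp only [Tm.ev]
    by_cases h : j = k
    · subst h; simp
    · rw [Function.update_of_ne h, Function.update_of_ne h, E_refl]
      exact le_top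
  | c0 => simp only [Tm.ev]; rw [E_refl]; exact le_top
  | c1 => simp only [Tm.ev]; rw [E_refl]; exact le_top
  | pr s t hs ht =>
    simp only [Tm.ev]
    exact le_trans (le_inf hs ht) (pr_ext G _ _ _ _)

lemma hatom (G : Grd Ω) (s t : Tm) (r : Ω → Ω → L) (i : ℕ → WN Ω L) (k : ℕ) :
    WN.Ext (fun a : WN Ω L => ⨆ x, ⨆ y, ((s.ev (M1 G L) (Function.update i k a)).v x ⊓
      (t.ev (M1 G L) (Function.update i k a)).v y ⊓ r x y)) := by
  intro a b
  refine le_trans ?_ (atom_ext (s.ev (M1 G L) (Function.update i k a))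
    (s.ev (M1 G L) (Function.update i k b)) (t.ev (M1 G L) (Function.update i k a))
    (t.ev (M1 G L) (Function.update i k b)) r)
  exact inf_le_inf_right _ (le_inf (tm_ext G s i k a b) (tm_ext G t i k a b))

lemma ext_iInf {ι : Sort*} {A : ι → WN Ω L → L} (h : ∀ x, WN.Ext (A x)) :
    WN.Ext (fun a => ⨅ x, A x a) := fun a b =>
  le_iInf fun x => le_trans (inf_le_inf_left _ (iInf_le _ x)) (h x a b)

lemma ext_const (c : L) : WN.Ext (fun _ : WN Ω L => c) := fun _ _ => inf_le_right

lemma val_ext (G : Grd Ω) (φ : SO) (i : ℕ → WN Ω L) (e : ℕ → FN Ω L) (k : ℕ) :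
    WN.Ext (fun a => φ.val (M1 G L) (Function.update i k a) e) := by
  induction φ generalizing i e with
  | lt s t => exact hatom G s t _ i k
  | eq s t =>
    intro a b
    show E a b ⊓ E (s.ev (M1 G L) (Function.update i k a)) (t.ev (M1 G L) (Function.update i k a))
      ≤ E (s.ev (M1 G L) (Function.update i k b)) (t.ev (M1 G L) (Function.update i k b))
    have h1 := tm_ext G s i k a b
    have h2 := tm_ext G t i k a b
    have h3 := E_trans (s.ev (M1 G L) (Function.update i k b))
      (s.ev (M1 G L) (Function.update i k a)) (t.ev (M1 G L) (Function.update i k a))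
    have h4 := E_trans (s.ev (M1 G L) (Function.update i k b))
      (t.ev (M1 G L) (Function.update i k a)) (t.ev (M1 G L) (Function.update i k b))
    refine le_trans ?_ h4
    refine le_inf ?_ (le_trans inf_le_left h2)
    refine le_trans ?_ h3
    rw [E_comm (s.ev (M1 G L) (Function.update i k b)) (s.ev (M1 G L) (Function.update i k a))]
    exact inf_le_inf_right _ h1
  | om t =>
    intro a b
    show E a b ⊓ (⨆ x, ((t.ev (M1 G L) (Function.update i k a)).v x ⊓ bo (x < G.w0))) ≤
      ⨆ x, ((t.ev (M1 G L) (Function.update i k b)).v x ⊓ bo (x < G.w0))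
    rw [inf_iSup_eq]
    refine iSup_mono fun x => le_inf ?_ (le_trans inf_le_right inf_le_right)
    refine le_trans ?_ (E_le (t.ev (M1 G L) (Function.update i k a)) _ x)
    exact inf_le_inf (tm_ext G t i k a b) inf_le_left
  | ap f s t => exact hatom G s t _ i k
  | neg a ih => exact ext_compl (ih i e)
  | and a b iha ihb =>
    intro x y
    exact le_inf (le_trans (inf_le_inf_left _ inf_le_left) (iha i e x y))
      (le_trans (inf_le_inf_left _ inf_le_right) (ihb i e x y))
  | all j a ih =>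
    refine ext_iInf fun x => ?_
    by_cases h : j = k
    · subst h
      simp only [Function.update_idem]
      exact ext_const _
    · have h1 : ∀ b : WN Ω L, Function.update (Function.update i k b) j x =
          Function.update (Function.update i j x) k b := fun b =>
        Function.update_comm (Ne.symm h) b x i
      simp only [h1]
      exact ih _ e
  | allF f a ih => exact ext_iInf fun x => ih i _

/-! ### the two structures agree -/

lemma WN_ext {a b : WN Ω L} (h : a.v = b.v) : a = b := by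
  cases a; cases b; cases h; rfl

lemma pr_chk (G : Grd Ω) (a b : Ω) :
    WN.pr G (WN.chk a : WN Ω L) (WN.chk b) = WN.chk (G.pi (a, b)) := by
  apply WN_ext
  funext k
  show bo ((G.pi.symm k).1 = a) ⊓ bo ((G.pi.symm k).2 = b) = (bo (k = G.pi (a, b)) : L)
  by_cases h : k = G.pi (a, b)
  · subst h
    rw [bo_true (by simp), bo_true (by simp), bo_true rfl, top_inf_eq]
  · rw [bo_false h]
    by_cases h1 : (G.pi.symm k).1 = a
    · have h2 : ¬ (G.pi.symm k).2 = b := by
        intro h2
        apply h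
        rw [← h1, ← h2]
        simp
      rw [bo_false h2, inf_bot_eq]
    · rw [bo_false h1, bot_inf_eq]

lemma tm_chk (G : Grd Ω) (t : Tm) (i : ℕ → Ω) :
    t.ev (M1 G L) (fun k => WN.chk (i k)) = WN.chk (t.ev (M0 G L) i) := by
  induction t with
  | v j => rfl
  | c0 => rfl
  | c1 => rfl
  | pr s t hs ht =>
    simp only [Tm.ev]
    rw [hs, ht]
    exact pr_chk G _ _

lemma atom_chk (a b : Ω) (r : Ω → Ω → L) :
    (⨆ i, ⨆ j, ((WN.chk a : WN Ω L).v i ⊓ (WN.chk b : WN Ω L).v j ⊓ r i j)) = r a b := by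
  have h1 : ∀ i, (⨆ j, ((WN.chk a : WN Ω L).v i ⊓ (WN.chk b : WN Ω L).v j ⊓ r i j)) =
      bo (i = a) ⊓ r i b := by
    intro i
    simp only [inf_assoc]
    rw [← inf_iSup_eq]
    congr 1
    exact iSup_bo b (fun j => r i j)
  simp only [h1]
  exact iSup_bo a (fun i => r i b)

lemma val_chk (G : Grd Ω) (φ : SO) (i : ℕ → Ω) (e : ℕ → FN Ω L) :
    φ.val (M1 G L) (fun k => WN.chk (i k)) e = φ.val (M0 G L) i e := by
  induction φ generalizing i e with
  | lt s t =>
    simp only [SO.val, tm_chk]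
    exact atom_chk _ _ _
  | eq s t =>
    simp only [SO.val, tm_chk]
    exact (E_comm _ _).trans (E_chk (WN.chk (t.ev (M0 G L) i) : WN Ω L) (s.ev (M0 G L) i))
  | om t =>
    simp only [SO.val, tm_chk]
    exact iSup_bo _ _
  | ap f s t =>
    simp only [SO.val, tm_chk]
    exact atom_chk _ _ _
  | neg a ih => simp only [SO.val, ih]
  | and a b iha ihb => simp only [SO.val, iha, ihb]
  | all j a ih =>
    simp only [SO.val]
    rw [inf_chk (val_ext G a (fun k => WN.chk (i k)) e j)]
    refine iInf_congr fun x => ?_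
    rw [← ih]
    congr 1
    funext m
    by_cases h : m = j
    · subst h; simp
    · rw [Function.update_of_ne h, Function.update_of_ne h]
  | allF f a ih =>
    simp only [SO.val]
    exact iInf_congr fun x => ih i _

/-- Packet WNA. -/
theorem wna : G_WNA.{u} := by
  intro Ω _ _ L _ G
  refine ⟨fun A hA => ⟨attain G hA, ?_, sup_chk hA, inf_chk hA⟩, fun φ i e k => val_ext G φ i e k,
    fun φ i e => val_chk G φ i e⟩
  obtain ⟨a, ha⟩ := attain G (ext_compl hA)
  refine ⟨a, ?_⟩
  have h1 : (⨆ b, (A b)ᶜ) = (⨅ b, A b)ᶜ := compl_iInf.symm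
  rw [h1] at ha
  exact compl_injective ha

end Pool.Agent.Helper97.Ku.PkWNA
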