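import Pool.Agent.Helper97.Ku.GoalsC

set_option autoImplicit false

/-!
# Packet FUS (`MP_47bc22_lc`): the fusion
-/

namespace Pool.Agent.Helper97.Ku.PkFUS

open Set

/-- least upper bounds of sequences of countable ordinals -/
lemma exists_lub (g : ℕ → Om) : ∃ γ : Om, (∀ k, g k ≤ γ) ∧ ∀ β, β < γ → ∃ k, β < g k := by
  have h1 : (⨆ k, (g k).1) < Ordinal.omega 1 :=
    Ordinal.iSup_lt_omega_one (fun k => (g k).2)
  refine ⟨⟨⨆ k, (g k).1, h1⟩, fun k => ?_, fun β hβ => ?_⟩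
  · exact le_ciSup (f := fun k => (g k).1) Ordinal.bddAbove_of_small k
  · have h2 : β.1 < ⨆ k, (g k).1 := hβ
    exact (lt_ciSup_iff Ordinal.bddAbove_of_small).1 h2

lemma desc_le {p : ℕ → Cond} (hp : Desc p) {j k : ℕ} (h : j ≤ k) : p k ≤ p j := by
  induction k, h using Nat.le_induction with
  | base => exact le_rfl
  | succ k hk ih => exact (hp k).trans ih

lemma mem_S_of_le {p q : Cond} (h : q ≤ p) {s : Set Om} (hs : s ∈ q.S) : s ∩ Iio p.g ∈ p.S := by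
  rw [← h.2.1]
  exact ⟨s, hs, rfl⟩

/-- a branch through a node -/
lemma exists_branch {p : ℕ → Cond} (hp : Desc p) (k : ℕ) (s : Set Om) (hs : s ∈ (p k).S) :
    ∃ t : Set Om, (∀ j, t ∩ Iio (p j).g ∈ (p j).S) ∧ t ∩ Iio (p k).g = s ∧
      ∀ β ∈ t, ∃ j, β < (p j).g := by
  classical
  have hnext : ∀ (j : ℕ) (s : {s // s ∈ (p j).S}), ∃ s' : {s // s ∈ (p (j + 1)).S},
      s'.1 ∩ Iio (p j).g = s.1 := by
    intro j s
    have h1 : s.1 ∈ (fun s => s ∩ Iio (p j).g) '' (p (j + 1)).S := by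
      rw [(hp j).2.1]; exact s.2
    obtain ⟨s', hs', he⟩ := h1
    exact ⟨⟨s', hs'⟩, he⟩
  choose next hn using hnext
  let u : (i : ℕ) → {s // s ∈ (p (k + i)).S} := fun i =>
    Nat.rec (motive := fun i => {s // s ∈ (p (k + i)).S}) ⟨s, hs⟩ (fun i s => next (k + i) s) i
  have hu0 : (u 0).1 = s := rfl
  have hu1 : ∀ i, (u (i + 1)).1 ∩ Iio (p (k + i)).g = (u i).1 := fun i => hn (k + i) (u i)
  have hu : ∀ i j, i ≤ j → (u j).1 ∩ Iio (p (k + i)).g = (u i).1 := by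
    intro i j hij
    induction j, hij using Nat.le_induction with
    | base => exact inter_eq_left.mpr ((p (k + i)).S_sub _ (u i).2)
    | succ j hj ih =>
      rw [← ih, ← hu1 j]
      exact (inter_inter_Iio (desc_le hp (by omega)).1 _).symm
  refine ⟨⋃ i, (u i).1, ?_⟩
  have h2 : ∀ i, (⋃ i, (u i).1) ∩ Iio (p (k + i)).g = (u i).1 := by
    intro i
    ext β
    constructor
    · rintro ⟨h3, h4⟩
      obtain ⟨j, hj⟩ := mem_iUnion.1 h3
      rcases le_total i j with h5 | h5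
      · rw [← hu i j h5]; exact ⟨hj, h4⟩
      · rw [← hu j i h5] at hj; exact hj.1
    · intro h3
      exact ⟨mem_iUnion.2 ⟨i, h3⟩, (p (k + i)).S_sub _ (u i).2 h3⟩
  refine ⟨fun j => ?_, ?_, ?_⟩
  · rcases le_total k j with h | h
    · obtain ⟨i, rfl⟩ := Nat.exists_eq_add_of_le h
      rw [h2 i]
      exact (u i).2
    · rw [← inter_inter_Iio (desc_le hp h).1]
      have h3 : (⋃ i, (u i).1) ∩ Iio (p k).g = s := h2 0
      rw [h3]
      exact mem_S_of_le (desc_le hp h) hs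
  · exact h2 0
  · intro β hβ
    obtain ⟨i, hi⟩ := mem_iUnion.1 hβ
    exact ⟨k + i, (p (k + i)).S_sub _ (u i).2 hi⟩

/-- the union of the nodes on a row -/
def T (p : ℕ → Cond) (ξ : Kap) : Set Om := {β | ∃ j s, (p j).v (.row ξ) = some (.nd s) ∧ β ∈ s}

lemma v_row_nd {p : Cond} {ξ : Kap} {x : Val} (h : p.v (.row ξ) = some x) :
    ∃ s, x = .nd s ∧ s ∈ p.S := by
  have h1 := p.v_ok _ _ h
  cases x with
  | nd s => exact ⟨s, rfl, h1⟩
  | od η => exact absurd h1 (by simp [Ok])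

lemma node_mono {p : ℕ → Cond} (hp : Desc p) {ξ : Kap} {j k : ℕ} (h : j ≤ k) {s : Set Om}
    (hs : (p j).v (.row ξ) = some (.nd s)) :
    ∃ s', (p k).v (.row ξ) = some (.nd s') ∧ s' ∩ Iio (p j).g = s := by
  obtain ⟨y, hy, hy'⟩ := (desc_le hp h).2.2 _ _ hs
  obtain ⟨s', rfl, hs'⟩ := v_row_nd hy
  refine ⟨s', hy, ?_⟩
  simpa [Val.res] using hy'

lemma T_inter {p : ℕ → Cond} (hp : Desc p) {ξ : Kap} {k : ℕ} {s : Set Om}
    (hs : (p k).v (.row ξ) = some (.nd s)) : T p ξ ∩ Iio (p k).g = s := by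
  ext β
  constructor
  · rintro ⟨⟨j, s', hs', hβ⟩, h4⟩
    rcases le_total j k with h5 | h5
    · obtain ⟨s'', h6, h7⟩ := node_mono hp h5 hs'
      rw [hs] at h6
      simp only [Option.some.injEq, Val.nd.injEq] at h6
      rw [← h7, ← h6] at hβ
      exact hβ.1
    · obtain ⟨s'', h6, h7⟩ := node_mono hp h5 hs
      rw [hs'] at h6
      simp only [Option.some.injEq, Val.nd.injEq] at h6
      rw [← h7, ← h6]
      exact ⟨hβ, h4⟩
  · intro h
    obtain ⟨s', h1, h2⟩ := v_row_nd hs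
    simp only [Val.nd.injEq] at h1
    subst h1
    exact ⟨⟨k, _, hs, h⟩, (p k).S_sub _ h2 h⟩

lemma T_mem {p : ℕ → Cond} (hp : Desc p) {ξ : Kap} {k : ℕ} {s : Set Om}
    (hs : (p k).v (.row ξ) = some (.nd s)) (j : ℕ) : T p ξ ∩ Iio (p j).g ∈ (p j).S := by
  rcases le_total k j with h | h
  · obtain ⟨s', h6, h7⟩ := node_mono hp h hs
    rw [T_inter hp h6]
    obtain ⟨s'', h1, h2⟩ := v_row_nd h6
    simp only [Val.nd.injEq] at h1
    rw [h1]; exact h2
  · rw [← inter_inter_Iio (desc_le hp h).1, T_inter hp hs]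
    obtain ⟨s'', h1, h2⟩ := v_row_nd hs
    simp only [Val.nd.injEq] at h1
    rw [h1]; exact mem_S_of_le (desc_le hp h) h2

/-- padding by `false` -/
def pad (k : ℕ) (σ : ℕ → Bool) : ℕ → Bool := fun i => if i < k then σ i else false

lemma agree_pad (k : ℕ) (σ : ℕ → Bool) : Agree k σ (pad k σ) := fun i hi => by simp [pad, hi]

lemma pad_countable : {σ : ℕ → Bool | ∃ k τ, σ = pad k τ}.Countable := by
  have h1 : {σ : ℕ → Bool | ∃ k τ, σ = pad k τ} ⊆
      ⋃ k : ℕ, (fun f : Fin k → Bool => fun i : ℕ => if h : i < k then f ⟨i, h⟩ else false) ''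
        univ := by
    rintro σ ⟨k, τ, rfl⟩
    refine mem_iUnion.2 ⟨k, fun i => τ i, mem_univ _, ?_⟩
    funext i
    simp [pad]
  refine Countable.mono h1 (countable_iUnion fun k => ?_)
  exact (Set.toFinite _).countable

/-- Packet FUS. -/
theorem fus : G_REC → G_LIM → G_LIMU → G_FUS := by
  intro hrec hlim hlimu I b D0 p hyp
  obtain ⟨D, Q, n, hD0, hDm, hsys, hdesc, hQ0, hn, hopp, hsupp⟩ := hrec I b D0 p hyp
  have hd : ∀ σ, Desc (fun k => Q k σ) := fun σ k => hdesc k σ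
  -- the first digits decide the first coordinates
  have hQeq : ∀ i j σ τ, Agree j σ τ → (Q i σ).rs (D j) = (Q i τ).rs (D j) := by
    intro i j σ τ h
    rcases le_total j i with hij | hij
    · exact (hsys i).2 j hij σ τ h
    · rw [(hsys i).1 σ τ (fun m hm => h m (by omega))]
  have hg : ∀ k σ τ, (Q k σ).g = (Q k τ).g := fun k σ τ => by
    have := hQeq k 0 σ τ (fun i hi => absurd hi (by omega))
    have := congrArg Cond.g this
    simpa using this
  have hS : ∀ k σ τ, (Q k σ).S = (Q k τ).S := fun k σ τ => by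
    have := hQeq k 0 σ τ (fun i hi => absurd hi (by omega))
    have := congrArg Cond.S this
    simpa using this
  set σ0 : ℕ → Bool := fun _ => false with hσ0
  obtain ⟨γ, hγ1, hγ2⟩ := exists_lub (fun k => (Q k σ0).g)
  -- the branches
  have hbr := fun (k : ℕ) (s : Set Om) (hs : s ∈ (Q k σ0).S) => exists_branch (hd σ0) k s hs
  choose tb htb1 htb2 htb3 using hbr
  set B1 : Set (Set Om) := {t | ∃ σ ξ k, Coord.row ξ ∈ (Q k σ).supp ∧ t = T (fun k => Q k σ) ξ}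
    with hB1
  set B2 : Set (Set Om) := {t | ∃ k s, ∃ hs : s ∈ (Q k σ0).S, t = tb k s hs} with hB2
  have hv : ∀ σ ξ j, Coord.row ξ ∈ D j → ∀ i, (Q i σ).v (.row ξ) = (Q i (pad j σ)).v (.row ξ) := by
    intro σ ξ j hj i
    have h1 := hQeq i j σ (pad j σ) (agree_pad j σ)
    rw [← Cond.rs_v_mem (Q i σ) hj, ← Cond.rs_v_mem (Q i (pad j σ)) hj, h1]
  have hTpad : ∀ σ ξ k, Coord.row ξ ∈ (Q k σ).supp → ∃ j, Coord.row ξ ∈ D j ∧
      T (fun k => Q k σ) ξ = T (fun k => Q k (pad j σ)) ξ := by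
    intro σ ξ k h
    obtain ⟨j, hj⟩ := hsupp k σ _ h
    refine ⟨j, hj, ?_⟩
    unfold T
    simp only [hv σ ξ j hj]
  have hB1c : B1.Countable := by
    set Sg : Set (ℕ → Bool) := {σ | ∃ k τ, σ = pad k τ} with hSg
    have hSgc : Sg.Countable := pad_countable
    set R : Set Kap := {ξ | ∃ k σ, σ ∈ Sg ∧ Coord.row ξ ∈ (Q k σ).supp} with hR
    have hRc : R.Countable := by
      have h1 : R ⊆ ⋃ k : ℕ, ⋃ σ ∈ Sg, (Coord.row) ⁻¹' (Q k σ).supp := by
        rintro ξ ⟨k, σ, h1, h2⟩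
        exact mem_iUnion.2 ⟨k, mem_iUnion₂.2 ⟨σ, h1, h2⟩⟩
      refine Countable.mono h1 (countable_iUnion fun k => Countable.biUnion hSgc fun σ _ => ?_)
      exact (Q k σ).supp_countable.preimage (fun ξ ξ' h => by
        simpa using h)
    refine Countable.mono (s₂ := (fun q : (ℕ → Bool) × Kap => T (fun k => Q k q.1) q.2) ''
      (Sg ×ˢ R)) ?_ ((hSgc.prod hRc).image _)
    rintro t ⟨σ, ξ, k, h1, rfl⟩
    obtain ⟨j, hj, h2⟩ := hTpad σ ξ k h1
    refine ⟨(pad j σ, ξ), ⟨⟨j, σ, rfl⟩, k, pad j σ, ⟨j, σ, rfl⟩, ?_⟩, h2.symm⟩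
    have h3 := hv σ ξ j hj k
    show (Q k (pad j σ)).v (.row ξ) ≠ none
    rw [← h3]
    exact h1
  have hB2c : B2.Countable := by
    have h1 : B2 ⊆ ⋃ k : ℕ, range (fun s : {s // s ∈ (Q k σ0).S} => tb k s.1 s.2) := by
      rintro t ⟨k, s, hs, rfl⟩
      exact mem_iUnion.2 ⟨k, ⟨s, hs⟩, rfl⟩
    refine Countable.mono h1 (countable_iUnion fun k => ?_)
    have : Countable {s // s ∈ (Q k σ0).S} := (Q k σ0).S_ct
    exact countable_range _
  -- the limits
  have hP : ∀ σ, ∃ q : Cond, q.g = γ ∧ q.S = B1 ∪ B2 ∧ (∀ k, q ≤ Q k σ) ∧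
      q.supp = ⋃ k, (Q k σ).supp := by
    intro σ
    refine hlim (fun k => Q k σ) γ (B1 ∪ B2) (hd σ) ?_ ?_ (hB1c.union hB2c) ?_ ?_ ?_
    · intro k
      show (Q k σ).g ≤ γ
      rw [hg k σ σ0]; exact hγ1 k
    · intro β hβ
      obtain ⟨k, hk⟩ := hγ2 β hβ
      refine ⟨k, ?_⟩
      show β < (Q k σ).g
      rw [hg k σ σ0]; exact hk
    · intro t ht
      rcases ht with ⟨τ, ξ, k, h1, rfl⟩ | ⟨k, s, hs, rfl⟩
      · obtain ⟨x, hx⟩ := Option.ne_none_iff_exists'.mp h1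
        obtain ⟨s, rfl, hs⟩ := v_row_nd hx
        refine ⟨?_, fun j => ?_⟩
        · rintro β ⟨j, s', hs', hβ⟩
          obtain ⟨s'', h2, h3⟩ := v_row_nd hs'
          simp only [Val.nd.injEq] at h2
          subst h2
          have h4 : β < (Q j τ).g := (Q j τ).S_sub _ h3 hβ
          rw [hg j τ σ0] at h4
          exact lt_of_lt_of_le h4 (hγ1 j)
        · have h2 := T_mem (hd τ) (k := k) hx j
          rw [hg j τ σ, hS j τ σ] at h2
          exact h2
      · refine ⟨fun β hβ => ?_, fun j => ?_⟩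
        · obtain ⟨j, hj⟩ := htb3 k s hs β hβ
          exact lt_of_lt_of_le hj (hγ1 j)
        · have h2 := htb1 k s hs j
          rw [hg j σ0 σ, hS j σ0 σ] at h2
          exact h2
    · intro k s hs
      have hs' : s ∈ (Q k σ0).S := by rw [hS k σ0 σ]; exact hs
      refine ⟨tb k s hs', Or.inr ⟨k, s, hs', rfl⟩, ?_⟩
      have := htb2 k s hs'
      rw [hg k σ0 σ] at this
      exact this
    · intro ξ k s hs
      refine ⟨T (fun k => Q k σ) ξ, Or.inl ⟨σ, ξ, k, ?_, rfl⟩, fun j hj => ?_⟩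
      · show (Q k σ).v (.row ξ) ≠ none
        rw [hs]; simp
      · obtain ⟨s', h1, h2⟩ := node_mono (hd σ) hj hs
        rw [T_inter (hd σ) h1]
        exact h1
  choose P hPg hPS hPle hPsupp using hP
  refine ⟨P, n, fun σ => (hPle σ 0).trans (hQ0 σ), fun σ τ => ?_, hn, fun k σ τ h1 h2 => ?_⟩
  · refine hlimu (fun k => Q k σ) (fun k => Q k τ) (P σ) (P τ) D0 (hd σ) (hd τ) ?_ ?_ ?_
      (hPle σ) (hPle τ) (hPsupp σ) (hPsupp τ) ?_
    · rw [hPg, hPg]
    · rw [hPS, hPS]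
    · intro β hβ
      rw [hPg] at hβ
      obtain ⟨k, hk⟩ := hγ2 β hβ
      refine ⟨k, ?_⟩
      show β < (Q k σ).g
      rw [hg k σ σ0]; exact hk
    · intro k
      show (Q k σ).rs D0 = (Q k τ).rs D0
      rw [← hD0]
      exact hQeq k 0 σ τ (fun i hi => absurd hi (by omega))
  · rcases hopp k σ τ h1 h2 with ⟨h3, h4⟩ | ⟨h3, h4⟩
    · exact Or.inl ⟨RO.lower (hPle σ (k + 1)) h3, RO.lower (hPle τ (k + 1)) h4⟩
    · exact Or.inr ⟨RO.lower (hPle σ (k + 1)) h3, RO.lower (hPle τ (k + 1)) h4⟩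

end Pool.Agent.Helper97.Ku.PkFUS
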