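import Pool.Agent.Helper97.Ku.GoalsD

set_option autoImplicit false

/-!
# Packet UNC (`MP_47bc22_lc`): the first uncountable ordinal is preserved
-/

namespace Pool.Agent.Helper97.Ku.PkUNC

open Set

/-! ### countability -/

lemma countable_Iio (α : Om) : Countable {n : Om // n < α} := by
  have h1 : α.1.card ≤ Cardinal.aleph0 := by
    have h2 : α.1 < (Cardinal.aleph 1).ord := by
      rw [Cardinal.ord_aleph]; exact α.2
    rw [Cardinal.lt_ord] at h2
    have h3 : α.1.card < Order.succ Cardinal.aleph0 := by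
      rw [Cardinal.succ_aleph0]; exact h2
    exact Order.lt_succ_iff.1 h3
  have h4 : Countable (Set.Iio α.1) := by
    rw [← Cardinal.mk_le_aleph0_iff, Cardinal.mk_Iio_ordinal]
    exact Cardinal.lift_le_aleph0.2 h1
  exact Function.Injective.countable (f := fun n : {n : Om // n < α} =>
    (⟨n.1.1, n.2⟩ : Set.Iio α.1)) (fun a b h => by
      have h5 : a.1.1 = b.1.1 := by
        have := congrArg Subtype.val h
        exact this
      exact Subtype.ext (Subtype.ext h5))

lemma uncountable_Om : ¬ Countable Om := by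
  intro h
  have h1 := Cardinal.mk_le_aleph0_iff.2 h
  rw [Cardinal.mk_Iio_ordinal, Ordinal.card_omega, Cardinal.lift_le_aleph0] at h1
  exact absurd h1 (not_le.2 Cardinal.aleph0_lt_aleph_one)

/-! ### values -/

variable {W : Type*} {F : Type*} {L : Type*} [CompleteBooleanAlgebra L]

lemma val_ex (M : BStr W F L) (k : ℕ) (a : SO) (i : ℕ → W) (e : ℕ → F) :
    (SO.ex k a).val M i e = ⨆ x, a.val M (Function.update i k x) e := by
  simp only [SO.ex, SO.val, compl_iInf, compl_compl]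

lemma val_exF (M : BStr W F L) (k : ℕ) (a : SO) (i : ℕ → W) (e : ℕ → F) :
    (SO.exF k a).val M i e = ⨆ x, a.val M i (Function.update e k x) := by
  simp only [SO.exF, SO.val, compl_iInf, compl_compl]

lemma val_or (M : BStr W F L) (a b : SO) (i : ℕ → W) (e : ℕ → F) :
    (SO.or a b).val M i e = a.val M i e ⊔ b.val M i e := by
  simp only [SO.or, SO.val, compl_inf, compl_compl]

lemma val_imp (M : BStr W F L) (a b : SO) (i : ℕ → W) (e : ℕ → F) :
    (SO.imp a b).val M i e = (a.val M i e)ᶜ ⊔ b.val M i e := by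
  simp only [SO.imp, SO.val, compl_inf, compl_compl]

lemma bo_inf (P Q : Prop) : (bo P ⊓ bo Q : L) = bo (P ∧ Q) := by
  by_cases h : P <;> by_cases k : Q <;> simp [bo, h, k]

lemma bo_sup (P Q : Prop) : (bo P ⊔ bo Q : L) = bo (P ∨ Q) := by
  by_cases h : P <;> by_cases k : Q <;> simp [bo, h, k]

lemma bo_compl (P : Prop) : ((bo P)ᶜ : L) = bo (¬ P) := by
  by_cases h : P <;> simp [bo, h]

/-- Packet UNC, first part. -/
theorem unc : G_CNTD → G_UNC := by
  intro hcd G i e
  rw [eq_top_iff, RO.le_def]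
  intro p _
  simp only [SO.unc, val_ex, val_or, SO.val, RO.mem_iInf]
  intro f
  -- the truth value of the matrix
  set A : Om → Om → Om → Om → BA := fun x0 x1 x2 x3 =>
    f.v x0 x2 ⊓ f.v x1 x3 ⊓ ((bo (x2 < G.w0))ᶜ ⊔ ((bo (x0 = x1))ᶜ ⊓ bo (x2 = x3))) with hA
  suffices h : p ∈ ⨆ x0, ⨆ x1, ⨆ x2, ⨆ x3, A x0 x1 x2 x3 by
    exact h
  refine RO.dense fun q hq => ?_
  by_contra hcon
  -- no extension decides
  have hno : ∀ r, r ≤ q → ∀ x y k l, r ∈ f.v x k → r ∈ f.v y l →
      (¬ k < G.w0 ∨ (x ≠ y ∧ k = l)) → False := by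
    intro r hr x y k l h1 h2 h3
    refine hcon ⟨r, hr, ?_⟩
    have h4 : r ∈ A x y k l := by
      refine ⟨⟨h1, h2⟩, ?_⟩
      rw [bo_compl, bo_compl, bo_inf, bo_sup, bo_true h3]
      exact RO.mem_top _
    have h5 : A x y k l ≤ ⨆ x0, ⨆ x1, ⨆ x2, ⨆ x3, A x0 x1 x2 x3 :=
      le_iSup_of_le x (le_iSup_of_le y (le_iSup_of_le k (le_iSup_of_le l le_rfl)))
    exact h5 r h4
  have hc : Countable {n : Om // n < G.w0} := countable_Iio G.w0
  obtain ⟨q1, hq1, hD⟩ := hcd {n : Om // n < G.w0} q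
    (fun n => {q | (∃ x, q ∈ f.v x n.1) ∨ q ∈ (⨆ x, f.v x n.1)ᶜ}) (by
      intro n q _
      obtain ⟨q', hq', h⟩ := RO.mem_or_compl (a := ⨆ x, f.v x n.1) q
      rcases h with h | h
      · obtain ⟨r, hr, x, hx⟩ := RO.mem_iSup.1 h q' le_rfl
        exact ⟨r, hr.trans hq', Or.inl ⟨x, hx⟩⟩
      · exact ⟨q', hq', Or.inr h⟩) (by
      rintro n q r hr (⟨x, hx⟩ | h)
      · exact Or.inl ⟨x, RO.lower hr hx⟩
      · exact Or.inr (RO.lower hr h))
  set I : Set Om := {x | ∃ n, n < G.w0 ∧ q1 ∈ f.v x n} with hI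
  have hIc : I.Countable := by
    have h1 : ∀ x : I, ∃ n : {n : Om // n < G.w0}, q1 ∈ f.v x.1 n.1 := by
      rintro ⟨x, n, hn, hx⟩
      exact ⟨⟨n, hn⟩, hx⟩
    choose F hF using h1
    have h2 : Function.Injective F := by
      intro a b hab
      by_contra hne
      refine hno q1 hq1 a.1 b.1 (F a).1 (F a).1 (hF a) ?_ (Or.inr ⟨?_, rfl⟩)
      · rw [hab]; exact hF b
      · exact fun h => hne (Subtype.ext h)
    exact Set.countable_coe_iff.1 h2.countable
  obtain ⟨x, hx⟩ : ∃ x, x ∉ I := by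
    by_contra hall
    push Not at hall
    have h1 : I = Set.univ := Set.eq_univ_of_forall hall
    rw [h1] at hIc
    exact uncountable_Om (Set.countable_univ_iff.1 hIc)
  have htot : q1 ∈ ⨆ n, f.v x n := by rw [f.tot x]; exact RO.mem_top _
  obtain ⟨r, hr, n, hn⟩ := RO.mem_iSup.1 htot q1 le_rfl
  by_cases hnw : n < G.w0
  · rcases hD ⟨n, hnw⟩ with ⟨x', hx'⟩ | h
    · have hne : x ≠ x' := by
        rintro rfl
        exact hx ⟨n, hnw, hx'⟩
      exact hno r (hr.trans hq1) x x' n n hn (RO.lower hr hx') (Or.inr ⟨hne, rfl⟩)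
    · have h1 : r ∈ ⨆ x, f.v x n := (le_iSup (fun x => f.v x n) x) r hn
      exact RO.not_mem_compl h1 (RO.lower hr h)
  · exact hno r (hr.trans hq1) x x n n hn hn (Or.inl hnw)

/-- Packet UNC, second part. -/
theorem cntf : G_CNTF := by
  intro G i e
  rw [eq_top_iff, RO.le_def]
  intro p _
  simp only [SO.cnt, val_exF, val_imp, SO.val, RO.mem_iInf]
  intro α
  have hinf : Infinite {n : Om // n < G.w0} := by
    have hne : Nonempty {n : Om // n < G.w0} := ⟨⟨G.c0, G.w0_pos⟩⟩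
    have : NoMaxOrder {n : Om // n < G.w0} := ⟨fun a => by
      obtain ⟨j, h1, h2⟩ := G.w0_lim a.1 a.2
      exact ⟨⟨j, h2⟩, h1⟩⟩
    exact NoMaxOrder.infinite
  have hcα : Countable {n : Om // n < α} := countable_Iio α
  obtain ⟨g, hg⟩ := exists_injective_nat {n : Om // n < α}
  classical
  set f0 : Om → Om := fun x => if h : x < α then
    (Infinite.natEmbedding {n : Om // n < G.w0} (g ⟨x, h⟩)).1 else G.c0 with hf0
  have h1 : ∀ x, x < α → f0 x < G.w0 := fun x hx => by
    simp only [hf0, dif_pos hx]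
    exact (Infinite.natEmbedding {n : Om // n < G.w0} (g ⟨x, hx⟩)).2
  have h2 : ∀ x y, x < α → y < α → f0 x = f0 y → x = y := fun x y hx hy h => by
    simp only [hf0, dif_pos hx, dif_pos hy] at h
    have h3 := (Infinite.natEmbedding {n : Om // n < G.w0}).injective (Subtype.ext h)
    have h4 := hg h3
    exact congrArg Subtype.val h4
  refine RO.le_def.1 (le_iSup _ (gfn f0)) p ?_
  simp only [RO.mem_iInf]
  intro x0 x1 x2 x3
  have key : ∀ (b : BA), b = ⊤ → p ∈ b := fun b hb => by rw [hb]; exact RO.mem_top _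
  apply key
  simp only [Tm.ev, M0, gfn]
  simp only [Function.update_self, Function.update_of_ne, ne_eq, Nat.reduceEqDiff,
    not_false_eq_true, OfNat.ofNat_ne_zero, OfNat.zero_ne_ofNat]
  simp only [bo_inf, bo_compl, bo_sup]
  apply bo_true
  by_cases h : (x0 < α ∧ x1 < α) ∧ x2 = f0 x0 ∧ x3 = f0 x1
  · right
    obtain ⟨⟨ha, hb⟩, hc, hd⟩ := h
    refine ⟨by rw [hc]; exact h1 x0 ha, ?_⟩
    by_cases he : x2 = x3
    · right
      exact h2 x0 x1 ha hb (by rw [← hc, ← hd, he])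
    · exact Or.inl he
  · exact Or.inl h

end Pool.Agent.Helper97.Ku.PkUNC
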